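import Pool.Agent.MP_887f27_pr.H69.Proc

/-! Patterns have a positive conditional probability. -/

namespace Pool.Agent.MP_887f27_pr.H53

open MeasureTheory ProbabilityTheory Set Pool.Agent.MP_887f27_pr.H69
open scoped ENNReal

lemma ex1_Iic {x : ℝ} (hx : 0 ≤ x) : ex1.real (Iic x) = 1 - Real.exp (-x) := by
  have := cdf_expMeasure_eq (r := 1) one_pos x
  rw [if_pos hx, one_mul] at this
  rw [← this, ← cdf_eq_real]
  rfl

lemma ex1_Iio : ex1 (Iio 1) ≠ 0 := by
  intro h
  have h1 : ex1 (Iic (1 / 2)) = 0 :=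
    measure_mono_null (fun x hx => lt_of_le_of_lt (mem_Iic.1 hx) (by norm_num)) h
  have h2 := ex1_Iic (x := 1 / 2) (by norm_num)
  rw [measureReal_def, h1] at h2
  have : Real.exp (-(1 / 2)) < 1 := Real.exp_lt_one_iff.2 (by norm_num)
  simp only [ENNReal.toReal_zero] at h2
  linarith

lemma ex1_Ici : ex1 (Ici 1) ≠ 0 := by
  intro h
  have h1 : ex1 (Iic 1)ᶜ = 0 :=
    measure_mono_null (fun x hx => le_of_lt (by simpa using hx)) h
  have h2 := ex1_Iic (x := 1) (by norm_num)
  rw [measureReal_def, (prob_compl_eq_zero_iff measurableSet_Iic).1 h1] at h2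
  have := Real.exp_pos (-1)
  simp only [ENNReal.toReal_one] at h2
  linarith

lemma PP_le_of_marks (q : ℝ) {T T' : Set Om} (hT : MeasurableSet T) (hT' : MeasurableSet T')
    (c : ℝ≥0∞) (h : ∀ x, ∀ᵐ ξ ∂muC, c * muM {m | ((ξ, m), x) ∈ T'} ≤ muM {m | ((ξ, m), x) ∈ T}) :
    c * PP q T' ≤ PP q T := by
  unfold PP
  rw [Measure.prod_apply_symm hT, Measure.prod_apply_symm hT',
    ← lintegral_const_mul _ (measurable_measure_prodMk_right hT')]
  refine lintegral_mono fun x => ?_
  have m1 := measurable_prodMk_right (y := x) hT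
  have m2 := measurable_prodMk_right (y := x) hT'
  simp only
  rw [Measure.prod_apply m1, Measure.prod_apply m2,
    ← lintegral_const_mul _ (measurable_measure_prodMk_left m2)]
  exact lintegral_mono_ae (h x)

lemma PP_le_of_clocks (q : ℝ) {T T' : Set Om} (hT : MeasurableSet T) (hT' : MeasurableSet T')
    (c : ℝ≥0∞) (h : ∀ x m, c * muC {ξ | ((ξ, m), x) ∈ T'} ≤ muC {ξ | ((ξ, m), x) ∈ T}) :
    c * PP q T' ≤ PP q T := by
  unfold PP
  rw [Measure.prod_apply_symm hT, Measure.prod_apply_symm hT',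
    ← lintegral_const_mul _ (measurable_measure_prodMk_right hT')]
  refine lintegral_mono fun x => ?_
  have m1 := measurable_prodMk_right (y := x) hT
  have m2 := measurable_prodMk_right (y := x) hT'
  simp only
  rw [Measure.prod_apply_symm m1, Measure.prod_apply_symm m2,
    ← lintegral_const_mul _ (measurable_measure_prodMk_right m2)]
  exact lintegral_mono (h x)

/-- The clock part of the pattern. -/
def PatC (B : Finset V) (S : Cfg → Set V) (k : ℕ) (ω : Om) : Prop :=
  ∀ w ∈ B, (w ∈ S (cfgI rI k ω) → cnt (ω.1.1 w) ((k : ℝ) + 1) = cnt (ω.1.1 w) k + 1) ∧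
    (w ∉ S (cfgI rI k ω) → cnt (ω.1.1 w) ((k : ℝ) + 1) = cnt (ω.1.1 w) k)

lemma m_cnt (w : V) (t : ℝ) : Measurable fun ω : Om => cnt (ω.1.1 w) t :=
  (measurable_cntO w).comp (f := fun ω : Om => (ω, t)) (by fun_prop)

lemma m_PatC (B : Finset V) {S : Cfg → Set V} (hS : ∀ w, MeasurableSet {x | w ∈ S x}) (k : ℕ) :
    Measurable (PatC B S k) := by
  refine Measurable.forall fun w => measurable_const.imp ?_
  have h1 : Measurable fun ω : Om => w ∈ S (cfgI rI k ω) :=
    (measurableSet_setOfPred.1 (hS w)).comp (measurable_cfgI rI k)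
  refine (h1.imp ?_).and (h1.not.imp ?_)
  · exact measurableSet_setOfPred.1 (measurableSet_eq_fun (m_cnt w _) ((m_cnt w _).add_const 1))
  · exact measurableSet_setOfPred.1 (measurableSet_eq_fun (m_cnt w _) (m_cnt w _))

lemma m_mark (B : Finset V) (δ : V → Dir) (k : ℕ) :
    Measurable fun ω : Om => ∀ w ∈ B, ω.1.2 (w, cnt (ω.1.1 w) k) = δ w := by
  refine Measurable.forall fun w => measurable_const.imp ?_
  have : Measurable fun ω : Om => ω.1.2 (w, cnt (ω.1.1 w) k) :=
    measurable_at_index (f := fun (n : ℕ) (ω : Om) => ω.1.2 (w, n)) (fun n => by fun_prop)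
      (m_cnt w _)
  exact measurableSet_setOfPred.1 (this (measurableSet_singleton (δ w)))

lemma marks_step (B : Finset V) (δ : V → Dir) (N : V → ℕ) {A : Set Mrk} (hA : MeasurableSet A)
    (dA : ∀ a b : Mrk, (∀ w n, n ≠ N w → a (w, n) = b (w, n)) → a ∈ A → b ∈ A) :
    muM (A ∩ {m | ∀ w ∈ B, m (w, N w) = δ w}) = 4⁻¹ ^ B.card * muM A := by
  classical
  induction B using Finset.induction_on with
  | empty => simp
  | insert v B hv ih =>
    have e : A ∩ {m : Mrk | ∀ w ∈ insert v B, m (w, N w) = δ w} =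
        (A ∩ {m : Mrk | ∀ w ∈ B, m (w, N w) = δ w}) ∩ {m | m (v, N v) ∈ ({δ v} : Set Dir)} := by
      ext m
      simp only [mem_inter_iff, mem_ofPred_eq, Finset.forall_mem_insert, mem_singleton_iff]
      tauto
    have hm : MeasurableSet {m : Mrk | ∀ w ∈ B, m (w, N w) = δ w} :=
      measurableSet_setOfPred.2 (Measurable.forall fun w => measurable_const.imp
        (measurableSet_setOfPred.1 (measurableSet_eq_fun (measurable_pi_apply (w, N w))
          measurable_const)))
    have key := measure_inter_eval (fun _ : V × ℕ => uniformOn (univ : Set Dir)) (v, N v)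
      (hA.inter hm) (B := {δ v}) (by
        rintro a c ⟨h1, h2⟩
        refine ⟨dA a _ (fun w n hn => ?_) h1, fun w hw => ?_⟩
        · rw [Function.update_of_ne]
          rintro ⟨rfl, rfl⟩
          exact hn rfl
        · rw [Function.update_of_ne, h2 w hw]
          intro h
          exact hv ((Prod.mk.inj h).1 ▸ hw)) (measurableSet_singleton _)
    have u : uniformOn (univ : Set Dir) {δ v} = 4⁻¹ := by
      rw [uniformOn_univ]
      simp
    rw [e, Finset.card_insert_of_notMem hv, pow_succ']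
    unfold muM at ih ⊢
    rw [key, ih, u, mul_assoc]

lemma box_one {U : Set ℝ} (hU : MeasurableSet U) :
    mu1 {z | z 0 ∈ U ∧ z 1 ∈ Ici 1} = ex1 (Ici 1) * ex1 U := by
  have key := measure_inter_eval (fun _ : ℕ => ex1) 1 (A := {z | z 0 ∈ U})
    (hU.preimage (measurable_pi_apply 0)) (B := Ici 1) (by
      intro a c h
      simpa using h) measurableSet_Ici
  rw [measure_eval _ 0 hU] at key
  exact key

theorem pattern : PatternStmt := by
  classical
  intro hGl hG B
  obtain ⟨mG, -, -, hmap, hgl⟩ := hGl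
  set c0 : ℝ≥0∞ := ex1 (Ici 1) * min (ex1 (Iio 1)) (ex1 (Ici 1)) with hc0
  have hc00 : c0 ≠ 0 := mul_ne_zero ex1_Ici (by
    rcases min_choice (ex1 (Iio 1)) (ex1 (Ici 1)) with h | h <;> rw [h]
    exacts [ex1_Iio, ex1_Ici])
  have hc0t : c0 ≠ ⊤ := ENNReal.mul_ne_top (measure_ne_top _ _)
    (ne_top_of_le_ne_top (measure_ne_top _ _) (min_le_left _ _))
  have hct : 4⁻¹ ^ B.card * c0 ^ B.card ≠ ⊤ :=
    ENNReal.mul_ne_top (ENNReal.pow_ne_top (by simp)) (ENNReal.pow_ne_top hc0t)
  refine ⟨(4⁻¹ ^ B.card * c0 ^ B.card).toReal,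
    ENNReal.toReal_pos (mul_ne_zero (pow_ne_zero _ (by simp)) (pow_ne_zero _ hc00)) hct,
    fun δ S hS q k E hE => ?_⟩
  have m0 : Measurable fun ω : Om => cfgI rI k ω ∈ E :=
    (measurableSet_setOfPred.1 hE).comp (measurable_cfgI rI k)
  have M0 : MeasurableSet {ω : Om | cfgI rI k ω ∈ E} := measurableSet_setOfPred.2 m0
  have M1 : MeasurableSet {ω : Om | cfgI rI k ω ∈ E ∧ PatC B S k ω} :=
    measurableSet_setOfPred.2 (m0.and (m_PatC B hS k))
  have eT : {ω : Om | cfgI rI k ω ∈ E ∧ Pat B δ S k ω} =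
      {ω : Om | cfgI rI k ω ∈ E ∧ PatC B S k ω} ∩
        {ω | ∀ w ∈ B, ω.1.2 (w, cnt (ω.1.1 w) k) = δ w} := by
    ext ω
    simp only [mem_inter_iff, mem_ofPred_eq, Pat, PatC]
    exact ⟨fun h => ⟨⟨h.1, fun w hw => (h.2 w hw).2⟩, fun w hw => (h.2 w hw).1⟩,
      fun h => ⟨h.1.1, fun w hw => ⟨h.2 w hw, h.1.2 w hw⟩⟩⟩
  have M2 : MeasurableSet {ω : Om | cfgI rI k ω ∈ E ∧ Pat B δ S k ω} := by
    rw [eT]; exact M1.inter (measurableSet_setOfPred.2 (m_mark B δ k))
  have s1 := PP_le_of_marks q M2 M1 (4⁻¹ ^ B.card) (by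
    intro x
    filter_upwards [hG] with ξ hξ
    have hA : MeasurableSet {m : Mrk | cfgI rI k ((ξ, m), x) ∈ E ∧ PatC B S k ((ξ, m), x)} :=
      M1.preimage (f := fun m : Mrk => ((ξ, m), x)) (by fun_prop)
    rw [← marks_step B δ (fun w => cnt (ξ w) k) hA]
    · refine measure_mono fun m hm => ?_
      exact ⟨hm.1.1, fun w hw => ⟨hm.2 w hw, hm.1.2 w hw⟩⟩
    · intro a b hab ha
      have : cfgI rI k ((ξ, a), x) = cfgI rI k ((ξ, b), x) := funext fun v =>
        valI_marks rI ξ a b x v k fun w n hn => hab w n (by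
          rintro rfl
          exact absurd (le_tm_cnt (hξ.2.1 w k)) (not_le.2 hn))
      simp only [mem_ofPred_eq, PatC] at ha ⊢
      rw [← this]
      exact ha)
  have s2 := PP_le_of_clocks q M1 M0 (c0 ^ B.card) (by
    intro x m
    have hA1 : MeasurableSet {ξ : Clk | ((ξ, m), x) ∈
        {ω : Om | cfgI rI k ω ∈ E ∧ PatC B S k ω}} :=
      M1.preimage (f := fun ξ : Clk => ((ξ, m), x)) (by fun_prop)
    have hA0 : MeasurableSet {ξ : Clk | ((ξ, m), x) ∈ {ω : Om | cfgI rI k ω ∈ E}} :=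
      M0.preimage (f := fun ξ : Clk => ((ξ, m), x)) (by fun_prop)
    conv_rhs => rw [← hmap k (Nat.cast_nonneg k)]
    rw [Measure.map_apply (mG k) hA1, Measure.prod_apply (mG k hA1),
      ← lintegral_indicator_const hA0]
    refine lintegral_mono_ae ?_
    filter_upwards [hG] with ξ hξ
    by_cases h0 : ξ ∈ {ξ : Clk | cfgI rI k ((ξ, m), x) ∈ E}
    swap
    · rw [indicator_of_notMem h0]; exact zero_le
    rw [indicator_of_mem h0]
    let U : V → Set ℝ := fun w => if w ∈ S (cfgI rI k ((ξ, m), x)) then Iio 1 else Ici 1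
    have hU : ∀ w, MeasurableSet (U w) := by
      intro w
      simp only [U]
      split_ifs
      exacts [measurableSet_Iio, measurableSet_Ici]
    let Y : V → Set (ℕ → ℝ) := fun w => {z | z 0 ∈ U w ∧ z 1 ∈ Ici 1}
    have hY : ∀ w, MeasurableSet (Y w) := fun w =>
      ((hU w).preimage (measurable_pi_apply 0)).inter
        (measurableSet_Ici.preimage (measurable_pi_apply 1))
    have hbox : c0 ^ B.card ≤ muC (Set.pi (B : Set V) Y) := by
      unfold muC
      rw [Measure.infinitePi_pi _ (fun w _ => hY w), ← Finset.prod_const]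
      refine Finset.prod_le_prod' fun w _ => ?_
      rw [box_one (hU w), hc0]
      refine mul_le_mul_right ?_ _
      simp only [U]
      split_ifs
      exacts [min_le_left _ _, min_le_right _ _]
    refine hbox.trans (measure_mono_ae ?_)
    filter_upwards [hG] with ζ hζ hz
    have hp : ∀ w, 0 ≤ ζ w 0 := fun w => (hζ.1 w 0).le
    set η : Clk := fun v n => glue n k (ξ v) (ζ v) with hη
    have g1 : ∀ w n, n < cnt (ξ w) k → tm (η w) n = tm (ξ w) n := fun w =>
      (hgl k (ξ w) (ζ w) (hξ.2.1 w k)).2.1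
    have g2 : ∀ w n, tm (η w) (cnt (ξ w) k + n) = k + tm (ζ w) n := fun w =>
      (hgl k (ξ w) (ζ w) (hξ.2.1 w k)).2.2
    have g3 : ∀ w, tm (η w) (cnt (ξ w) k) = k + ζ w 0 := fun w => by
      simpa [tm_zero] using g2 w 0
    have hc : ∀ w s, s ≤ (k : ℝ) → cnt (η w) s = cnt (ξ w) s := by
      intro w s hs
      have hle := cnt_mono (hξ.2.1 w k) hs
      refine cnt_eq_of ?_ fun n hn => ?_
      · rcases hle.lt_or_eq with h | h
        · rw [g1 w _ h]; exact le_tm_cnt (hξ.2.1 w s)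
        · rw [h, g3]; linarith [hp w]
      · rw [g1 w n (hn.trans_le hle)]; exact tm_lt_of_lt_cnt hn
    have hpast : Past ((ξ, m), x) ((η, m), x) k := ⟨rfl, fun w s hs => ⟨(hc w s hs).symm,
      fun n hn => ⟨(g1 w n (hn.trans_le (cnt_mono (hξ.2.1 w k) hs))).symm, rfl⟩⟩⟩
    have hcfg : cfgI rI k ((η, m), x) = cfgI rI k ((ξ, m), x) :=
      funext fun v => (hpast.valI rI v le_rfl).symm
    change cfgI rI k ((η, m), x) ∈ E ∧ PatC B S k ((η, m), x)
    refine ⟨by rw [hcfg]; exact h0, fun w hw => ?_⟩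
    obtain ⟨y0, y1⟩ := hz w hw
    rw [hcfg]
    change (_ → cnt (η w) _ = cnt (η w) _ + 1) ∧ (_ → cnt (η w) _ = cnt (η w) _)
    rw [hc w k le_rfl]
    have lt : ∀ n, n < cnt (ξ w) k → tm (η w) n < (k : ℝ) + 1 := fun n hn => by
      rw [g1 w n hn]; linarith [tm_lt_of_lt_cnt hn]
    constructor
    · intro hS'
      simp only [U, if_pos hS', mem_Iio] at y0
      refine cnt_eq_of ?_ fun n hn => ?_
      · rw [g2, tm_succ, tm_zero]
        linarith [hp w, mem_Ici.1 y1]
      · rcases (Nat.lt_succ_iff.1 hn).lt_or_eq with h | h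
        · exact lt n h
        · rw [h, g3]; linarith
    · intro hS'
      simp only [U, if_neg hS', mem_Ici] at y0
      refine cnt_eq_of ?_ lt
      rw [g3]; linarith)
  have s3 : 4⁻¹ ^ B.card * c0 ^ B.card * PP q {ω : Om | cfgI rI k ω ∈ E} ≤
      PP q {ω : Om | cfgI rI k ω ∈ E ∧ Pat B δ S k ω} := by
    rw [mul_assoc]
    exact (mul_le_mul_right s2 _).trans s1
  rw [lawI_real rI q k hE, measureReal_def, measureReal_def, ← ENNReal.toReal_mul]
  exact ENNReal.toReal_mono (measure_ne_top _ _) s3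

end Pool.Agent.MP_887f27_pr.H53
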